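import Mathlib.Combinatorics.SimpleGraph.Basic
import Mathlib.Analysis.InnerProductSpace.PiL2
import Mathlib.Analysis.Convex.Basic

/-!
# Long and short edges: definitions

* `IsDrawing G D` : `D` is a nondegenerate straight-line drawing of the graph `G` in the plane
  (crossings are allowed);
* `Realizable G S` : the graph `G`, with the set `S` of short edges, has a straight-line drawing in
  which the edges of length at most one are exactly the short ones;
* `KRealizable M` : the same problem for the complete bipartite graph `K_{m,n}`; the partition of its
  edges into short and long ones is given by the `m × n` matrix `M`.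
-/

namespace Pool.Agent.H728.LS

/-- The plane. -/
abbrev E2 : Type := EuclideanSpace ℝ (Fin 2)

/-- `D` is a straight-line drawing of `G`: distinct vertices go to distinct points, and no vertex
lies in the relative interior of a segment which represents an edge. -/
def IsDrawing {V : Type} (G : SimpleGraph V) (D : V → E2) : Prop :=
  Function.Injective D ∧ ∀ u v w, G.Adj u v → D w ∉ openSegment ℝ (D u) (D v)

/-- `G` has a straight-line drawing in which an edge has length at most one if and only if it is
short, that is, belongs to `S`; the other edges are the long ones. -/
def Realizable {V : Type} (G : SimpleGraph V) (S : Set (Sym2 V)) : Prop :=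
  ∃ D : V → E2, IsDrawing G D ∧ ∀ u v, G.Adj u v → (dist (D u) (D v) ≤ 1 ↔ s(u, v) ∈ S)

/-- The number of columns of a matrix of Booleans, given by the list of its rows. -/
def wid (M : List (List Bool)) : ℕ := (M.headD []).length

/-- All the rows have the same length. -/
def IsMat (M : List (List Bool)) : Prop := ∀ row ∈ M, row.length = wid M

/-- The entry of a matrix. -/
def ent (M : List (List Bool)) (i j : ℕ) : Bool := (M.getD i []).getD j false

/-- The short edges of `K_{m,n}` given by an `m × n` matrix: the edge which joins the `i`-th vertex
of the first class and the `j`-th vertex of the second class is short if the entry `(i, j)` is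
`true`, and long if it is `false`. -/
def shortEdges (M : List (List Bool)) : Set (Sym2 (Fin M.length ⊕ Fin (wid M))) :=
  {e | ∃ (i : Fin M.length) (j : Fin (wid M)), e = s(Sum.inl i, Sum.inr j) ∧ ent M i j = true}

/-- Long/short edge realizability for the complete bipartite graph `K_{m,n}`, where `M` is an
`m × n` matrix. -/
def KRealizable (M : List (List Bool)) : Prop :=
  Realizable (completeBipartiteGraph (Fin M.length) (Fin (wid M))) (shortEdges M)

end Pool.Agent.H728.LS
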