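import Pool.Agent.H728.LS.Pert
import Pool.Agent.H625R2.BallFin
import Pool.Agent.H612.PatOf

/-!
# Long and short edges on complete bipartite graphs: hardness

The reduction is from the realizability of strict sign matrices. Every column of the sign matrix is
replaced by two vertices of the second class; a point of the first class is joined by a short edge
to the first one and by a long edge to the second one if the sign is positive, and conversely if it
is negative. The perpendicular bisector of the two vertices is the line of the column.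
-/

namespace Pool.Agent.NPC.ER.LS

open Pool.Agent.NPC Pool.Agent.H728.LS Filter Topology
open Pool.Agent.NPC.ER.Pat (SR SRN Rect sgn)

open scoped RealInnerProductSpace

/-- The reduction. -/
def red (M : List (List Bool)) : List (List Bool) :=
  M.map fun row => row.flatMap fun b => [b, !b]

theorem poly_red : Poly red :=
  Poly.map (F := fun (_ : List (List Bool)) (row : List Bool) => row.flatMap fun b => [b, !b])
    Poly.id (Poly.flatMap (F := fun (_ : List (List Bool) × List Bool) (b : Bool) => [b, !b])
      (Poly.snd Poly.id) (Poly.cons (Poly.snd Poly.id) (Poly.cons (Poly.not (Poly.snd Poly.id))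
        (Poly.const []))))

theorem length_dup (row : List Bool) : (row.flatMap fun b => [b, !b]).length = 2 * row.length := by
  induction row with
  | nil => rfl
  | cons a l ih =>
    simp only [List.flatMap_cons, List.length_append, List.length_cons, List.length_nil, ih]
    omega

theorem getD_dup (row : List Bool) : ∀ j, j < row.length →
    (row.flatMap fun b => [b, !b]).getD (2 * j) false = row.getD j false ∧
    (row.flatMap fun b => [b, !b]).getD (2 * j + 1) false = !row.getD j false := by
  induction row with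
  | nil => intro j hj; exact absurd hj (by simp)
  | cons a l ih =>
    intro j hj
    cases j with
    | zero => simp
    | succ j =>
      have := ih j (by simpa using hj)
      have e1 : 2 * (j + 1) = 2 * j + 1 + 1 := by omega
      have e2 : 2 * (j + 1) + 1 = (2 * j + 1) + 1 + 1 := by omega
      rw [e1]
      simpa using this

theorem length_red (M : List (List Bool)) : (red M).length = M.length := by simp [red]

theorem wid_red (M : List (List Bool)) : wid (red M) = 2 * wid M := by
  unfold wid red
  cases M with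
  | nil => rfl
  | cons row M => simp only [List.map_cons, List.headD_cons]; exact length_dup row

theorem isMat_of_rect {m : ℕ} {M : List (List Bool)} (hM : Rect m M) : IsMat M := by
  intro row hrow
  rw [hM row hrow]
  unfold wid
  cases M with
  | nil => exact absurd hrow (by simp)
  | cons r M => exact (hM r (by simp)).symm

theorem isMat_red {M : List (List Bool)} (hM : IsMat M) : IsMat (red M) := by
  intro row hrow
  rw [wid_red]
  unfold red at hrow
  obtain ⟨r, hr, rfl⟩ := List.mem_map.1 hrow
  rw [length_dup, hM r hr]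

theorem ent_red {M : List (List Bool)} (hM : IsMat M) {i j : ℕ} (hi : i < M.length)
    (hj : j < wid M) : ent (red M) i (2 * j) = ent M i j ∧
      ent (red M) i (2 * j + 1) = !ent M i j := by
  have hi' : i < (red M).length := by rw [length_red]; exact hi
  have e : (red M).getD i [] = (M.getD i []).flatMap fun b => [b, !b] := by
    rw [List.getD_eq_getElem _ _ hi', List.getD_eq_getElem _ _ hi]
    exact List.getElem_map _
  unfold ent
  rw [e]
  refine getD_dup _ j ?_
  rw [List.getD_eq_getElem _ _ hi, hM _ (List.getElem_mem hi)]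
  exact hj

theorem realizable_of_SRN {M : List (List Bool)} (hM : IsMat M) (h : SRN 2 M) :
    KRealizable (red M) := by
  obtain ⟨y, n, c, hn, hy⟩ := Pat.unit_of_SRN (k := 1) h (δ := 1) one_pos
  have ev : ∀ᶠ ε in 𝓝[>] (0 : ℝ), ∀ i ∈ Finset.range M.length, ∀ j ∈ Finset.range (wid M),
      (dist (ε • y i) ((1 - ε * c j) • n j) ≤ |(1 : ℝ)| ↔ 0 < sgn (ent M i j) * 1) ∧
      (dist (ε • y i) ((-1 - ε * c j) • n j) ≤ |(-1 : ℝ)| ↔ 0 < sgn (ent M i j) * (-1)) := by
    rw [Filter.eventually_all_finset]
    intro i hi
    rw [Filter.eventually_all_finset]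
    intro j hj
    rw [Finset.mem_range] at hi hj
    obtain ⟨hj', he⟩ := ent_eq hM hi hj
    have h1 : 0 < sgn (ent M i j) * (c j + ⟪y i, n j⟫) := by
      rw [he]
      exact hy i hi j hj'
    exact (Pat.crit (k := 0) (y i) (n j) (c j) 1 one_ne_zero (hn j).1 _ h1).and
      (Pat.crit (k := 0) (y i) (n j) (c j) (-1) (by norm_num) (hn j).1 _ h1)
  obtain ⟨ε, hε⟩ := ev.exists
  rw [kRealizable_iff]
  refine ⟨fun i => ε • y i, fun j => if j % 2 = 0 then (1 - ε * c (j / 2)) • n (j / 2) else
    (-1 - ε * c (j / 2)) • n (j / 2), fun i hi j hj => ?_⟩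
  rw [length_red] at hi
  rw [wid_red] at hj
  have hj2 : j / 2 < wid M := by omega
  obtain ⟨h1, h2⟩ := hε i (Finset.mem_range.2 hi) (j / 2) (Finset.mem_range.2 hj2)
  obtain ⟨e1, e2⟩ := ent_red hM hi hj2
  rw [abs_one] at h1
  rw [abs_neg, abs_one] at h2
  by_cases hp : j % 2 = 0
  · simp only [if_pos hp]
    rw [h1]
    have : ent (red M) i j = ent M i (j / 2) := by
      rw [← e1]
      congr 1
      omega
    rw [this]
    cases ent M i (j / 2) <;> simp [sgn]
  · simp only [if_neg hp]
    rw [h2]
    have : ent (red M) i j = !ent M i (j / 2) := by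
      rw [← e2]
      congr 1
      omega
    rw [this]
    cases ent M i (j / 2) <;> simp [sgn]

theorem SR_of_realizable {M : List (List Bool)} (hM : IsMat M) (h : KRealizable (red M)) :
    SR 3 M := by
  rw [kRealizable_iff] at h
  obtain ⟨p, q, hpq⟩ := h
  refine ⟨fun i => ![1, p i 0, p i 1], fun j => ![‖q (2 * j + 1)‖ ^ 2 - ‖q (2 * j)‖ ^ 2,
    2 * (q (2 * j) 0 - q (2 * j + 1) 0), 2 * (q (2 * j) 1 - q (2 * j + 1) 1)],
    fun i hi j hj => ?_⟩
  have hj' : j < wid M := by
    rw [hM _ (List.getElem_mem hi)] at hj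
    exact hj
  obtain ⟨_, he⟩ := ent_eq hM hi hj'
  rw [← he]
  obtain ⟨e1, e2⟩ := ent_red hM hi hj'
  have h1 := hpq i (by rw [length_red]; exact hi) (2 * j) (by rw [wid_red]; omega)
  have h2 := hpq i (by rw [length_red]; exact hi) (2 * j + 1) (by rw [wid_red]; omega)
  rw [e1] at h1
  rw [e2] at h2
  have hd : ∀ a b : E2, dist a b ^ 2 = (a 0 - b 0) ^ 2 + (a 1 - b 1) ^ 2 := by
    intro a b
    rw [EuclideanSpace.dist_eq, Real.sq_sqrt (by positivity), Fin.sum_univ_two, Real.dist_eq,
      Real.dist_eq, sq_abs, sq_abs]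
  have hn : ∀ a : E2, ‖a‖ ^ 2 = a 0 ^ 2 + a 1 ^ 2 := by
    intro a
    rw [EuclideanSpace.norm_sq_eq, Fin.sum_univ_two, Real.norm_eq_abs, Real.norm_eq_abs, sq_abs,
      sq_abs]
  have hval : (![1, p i 0, p i 1] ⬝ᵥ ![‖q (2 * j + 1)‖ ^ 2 - ‖q (2 * j)‖ ^ 2,
      2 * (q (2 * j) 0 - q (2 * j + 1) 0), 2 * (q (2 * j) 1 - q (2 * j + 1) 1)] : ℝ) =
      dist (p i) (q (2 * j + 1)) ^ 2 - dist (p i) (q (2 * j)) ^ 2 := by
    rw [hd, hd, hn, hn]
    simp [dotProduct, Fin.sum_univ_three]
    ring
  rw [hval]
  cases hb : ent M i j with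
  | true =>
    rw [hb] at h1 h2
    have h3 : dist (p i) (q (2 * j)) ≤ 1 := h1.2 rfl
    have h4 : 1 < dist (p i) (q (2 * j + 1)) := by
      by_contra h5
      have := h2.1 (not_lt.1 h5)
      simp at this
    have h5 : dist (p i) (q (2 * j)) ^ 2 ≤ 1 := by
      nlinarith [dist_nonneg (x := p i) (y := q (2 * j))]
    have h6 : 1 < dist (p i) (q (2 * j + 1)) ^ 2 := by nlinarith
    simp only [sgn, if_true, one_mul]
    linarith
  | false =>
    rw [hb] at h1 h2
    have h3 : dist (p i) (q (2 * j + 1)) ≤ 1 := h2.2 rfl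
    have h4 : 1 < dist (p i) (q (2 * j)) := by
      by_contra h5
      have := h1.1 (not_lt.1 h5)
      simp at this
    have h5 : dist (p i) (q (2 * j + 1)) ^ 2 ≤ 1 := by
      nlinarith [dist_nonneg (x := p i) (y := q (2 * j + 1))]
    have h6 : 1 < dist (p i) (q (2 * j)) ^ 2 := by nlinarith
    simp only [sgn, Bool.false_eq_true, if_false]
    linarith

theorem isPatOf : Pat.IsPatOf Sgn.patOf where
  poly := Sgn.poly_patOf Poly.id
  wf := Sgn.patOf_wf
  sound := fun _ h => Sgn.patOf_sound h
  complete := fun _ h => Sgn.patOf_complete h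

/-- The language of the problem. -/
def LSK : Set (List Bool) := lang fun M : List (List Bool) => IsMat M ∧ KRealizable M

/-- Hardness. -/
theorem lsk_hard : ERHard LSK := by
  refine ERHard.of_sys (f := fun S => red (Pat.matOf Sgn.patOf 0 S))
    (poly_red.comp (isPatOf.poly_matOf 0)) fun S => ?_
  obtain ⟨m, hm⟩ := Pat.rect_matOf Sgn.patOf 0 S
  have hM := isMat_of_rect hm
  constructor
  · intro hS
    exact ⟨isMat_red hM, realizable_of_SRN hM (isPatOf.srn (k := 0) hS)⟩
  · rintro ⟨-, hS⟩
    exact isPatOf.sat (k := 0) (SR_of_realizable hM hS)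

end Pool.Agent.NPC.ER.LS
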