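import Pool.Agent.H728.LS.Hard
import Pool.Agent.H670R2.ERMem
import Pool.Agent.ER.Dec

/-!
# Long and short edges on complete bipartite graphs: membership
-/

namespace Pool.Agent.NPC.ER.LS

open Pool.Agent.NPC Pool.Agent.H728.LS
open Pool.Agent.NPC.H670R2 (ff tt conj holds_conj poly_conj poly_tvar poly_tadd poly_tmul poly_tneg
  poly_eq poly_lt poly_le not_etr_ff)

/-- The difference of two variables. -/
def subT (a b : ℕ) : Tm := Tm.add (Tm.var a) (Tm.neg (Tm.var b))

/-- The square of the distance of the `i`-th point of the first class and the `j`-th point of the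
second class. -/
def distT (i j : ℕ) : Tm :=
  Tm.add (Tm.mul (subT (4 * i) (4 * j + 2)) (subT (4 * i) (4 * j + 2)))
    (Tm.mul (subT (4 * i + 1) (4 * j + 3)) (subT (4 * i + 1) (4 * j + 3)))

theorem eval_distT (x : ℕ → ℝ) (i j : ℕ) : (distT i j).eval x =
    (x (4 * i) - x (4 * j + 2)) ^ 2 + (x (4 * i + 1) - x (4 * j + 3)) ^ 2 := by
  simp only [distT, subT, Tm.eval]
  ring

/-- The condition for one edge. -/
def edgeF (i : ℕ) (p : Bool × ℕ) : Fm :=
  if p.1 = true then Fm.le (distT i p.2) Tm.one else Fm.lt Tm.one (distT i p.2)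

theorem holds_edgeF (x : ℕ → ℝ) (i : ℕ) (p : Bool × ℕ) :
    (edgeF i p).Holds x ↔ ((distT i p.2).eval x ≤ 1 ↔ p.1 = true) := by
  unfold edgeF
  split_ifs with h
  · simp [Fm.Holds, Tm.eval, h]
  · simp [Fm.Holds, Tm.eval, h]

/-- The conditions for all the edges. -/
def formC (M : List (List Bool)) : Fm :=
  conj (M.zipIdx.flatMap fun r => r.1.zipIdx.map fun p => edgeF r.2 p)

theorem holds_formC {M : List (List Bool)} (hM : IsMat M) (x : ℕ → ℝ) : (formC M).Holds x ↔
    ∀ i < M.length, ∀ j < wid M, ((distT i j).eval x ≤ 1 ↔ ent M i j = true) := by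
  unfold formC
  rw [holds_conj]
  constructor
  · intro h i hi j hj
    obtain ⟨hj', he⟩ := ent_eq hM hi hj
    have h1 : (M[i], i) ∈ M.zipIdx := by
      rw [List.mem_zipIdx_iff_getElem?]
      exact List.getElem?_eq_getElem hi
    have h2 : (M[i][j], j) ∈ M[i].zipIdx := by
      rw [List.mem_zipIdx_iff_getElem?]
      exact List.getElem?_eq_getElem hj'
    have h3 := h _ (List.mem_flatMap.2 ⟨_, h1, List.mem_map_of_mem h2⟩)
    rw [holds_edgeF] at h3
    rw [he]
    exact h3
  · intro h φ hφ
    obtain ⟨⟨r, i⟩, h1, hφ⟩ := List.mem_flatMap.1 hφ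
    obtain ⟨⟨b, j⟩, h2, rfl⟩ := List.mem_map.1 hφ
    rw [List.mem_zipIdx_iff_getElem?, List.getElem?_eq_some_iff] at h1 h2
    obtain ⟨hi, h1⟩ := h1
    obtain ⟨hj, h2⟩ := h2
    simp only at hi h1 hj h2
    subst h1
    have hj' : j < wid M := by
      rw [← hM _ (List.getElem_mem hi)]
      exact hj
    obtain ⟨_, he⟩ := ent_eq hM hi hj'
    rw [holds_edgeF, ← h2, ← he]
    exact h i hi j hj'

/-- The test for matrices. -/
def isMatB (M : List (List Bool)) : Bool := M.all fun row => decide (row.length = wid M)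

theorem isMatB_iff (M : List (List Bool)) : isMatB M = true ↔ IsMat M := by
  simp [isMatB, IsMat]

/-- The existential sentence. -/
def formE (M : List (List Bool)) : Fm := if isMatB M = true then formC M else ff

theorem dist_le_one_iff (a b : E2) :
    dist a b ≤ 1 ↔ (a 0 - b 0) ^ 2 + (a 1 - b 1) ^ 2 ≤ 1 := by
  rw [EuclideanSpace.dist_eq, Fin.sum_univ_two, Real.dist_eq, Real.dist_eq, sq_abs, sq_abs]
  rw [Real.sqrt_le_left (by norm_num), one_pow]

theorem formE_correct (M : List (List Bool)) : (IsMat M ∧ KRealizable M) ↔ ETR (formE M) := by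
  unfold formE
  rw [← isMatB_iff, kRealizable_iff]
  split_ifs with h
  · have hM := (isMatB_iff M).1 h
    constructor
    · rintro ⟨-, p, q, hpq⟩
      refine ⟨fun n => if n % 4 = 0 then p (n / 4) 0 else if n % 4 = 1 then p (n / 4) 1 else
        if n % 4 = 2 then q (n / 4) 0 else q (n / 4) 1, ?_⟩
      rw [holds_formC hM]
      intro i hi j hj
      rw [← hpq i hi j hj, eval_distT, dist_le_one_iff]
      have e1 : 4 * i % 4 = 0 := by omega
      have e2 : (4 * i + 1) % 4 = 1 := by omega
      have e3 : (4 * j + 2) % 4 = 2 := by omega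
      have e4 : (4 * j + 3) % 4 = 3 := by omega
      have f1 : 4 * i / 4 = i := by omega
      have f2 : (4 * i + 1) / 4 = i := by omega
      have f3 : (4 * j + 2) / 4 = j := by omega
      have f4 : (4 * j + 3) / 4 = j := by omega
      simp only [e1, e2, e3, e4, f1, f2, f3, f4]
      norm_num
    · rintro ⟨x, hx⟩
      rw [holds_formC hM] at hx
      refine ⟨h, fun i => !₂[x (4 * i), x (4 * i + 1)], fun j => !₂[x (4 * j + 2), x (4 * j + 3)],
        fun i hi j hj => ?_⟩
      rw [← hx i hi j hj, eval_distT, dist_le_one_iff]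
      simp
  · exact ⟨fun h' => absurd h'.1 h, fun h' => absurd h' not_etr_ff⟩

section

variable {α : Type} [TEnc α]

theorem poly_subT {a b : α → ℕ} (ha : Poly a) (hb : Poly b) :
    Poly (fun z => subT (a z) (b z)) := poly_tadd (poly_tvar ha) (poly_tneg (poly_tvar hb))

theorem poly_distT {i j : α → ℕ} (hi : Poly i) (hj : Poly j) :
    Poly (fun z => distT (i z) (j z)) := by
  have h0 : Poly (fun z => 4 * i z) := Poly.mul (Poly.const 4) hi
  have h1 : Poly (fun z => 4 * i z + 1) := Poly.succ h0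
  have h2 : Poly (fun z => 4 * j z + 2) := Poly.add (Poly.mul (Poly.const 4) hj) (Poly.const 2)
  have h3 : Poly (fun z => 4 * j z + 3) := Poly.add (Poly.mul (Poly.const 4) hj) (Poly.const 3)
  exact poly_tadd (poly_tmul (poly_subT h0 h2) (poly_subT h0 h2))
    (poly_tmul (poly_subT h1 h3) (poly_subT h1 h3))

theorem poly_edgeF {i : α → ℕ} {p : α → Bool × ℕ} (hi : Poly i) (hp : Poly p) :
    Poly (fun z => edgeF (i z) (p z)) :=
  Poly.ite (Poly.decide_bool (Poly.fst hp))
    (poly_le (poly_distT hi (Poly.snd hp)) (Poly.const _))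
    (poly_lt (Poly.const _) (poly_distT hi (Poly.snd hp)))

theorem poly_formC : Poly formC := by
  refine poly_conj (Poly.flatMap (F := fun (_ : List (List Bool)) (r : List Bool × ℕ) =>
    r.1.zipIdx.map fun p => edgeF r.2 p) (Poly.zipIdx Poly.id) ?_)
  exact Poly.map (F := fun (r : List (List Bool) × List Bool × ℕ) (p : Bool × ℕ) =>
    edgeF r.2.2 p) (Poly.zipIdx (Poly.fst (Poly.snd Poly.id)))
    (poly_edgeF (Poly.snd (Poly.snd (Poly.fst Poly.id))) (Poly.snd Poly.id))

theorem poly_wid {M : α → List (List Bool)} (hM : Poly M) : Poly (fun z => wid (M z)) :=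
  Poly.length (Pat.poly_headD hM)

theorem poly_isMatB : Poly isMatB :=
  Poly.all (p := fun (M : List (List Bool)) (row : List Bool) => decide (row.length = wid M))
    Poly.id (Poly.decide_eq (Poly.length (Poly.snd Poly.id)) (poly_wid (Poly.fst Poly.id)))

theorem poly_formE : Poly formE :=
  Poly.ite (Poly.decide_bool poly_isMatB) poly_formC (Poly.const _)

end

/-- Membership in `∃ℝ`. -/
theorem lsk_mem : InER LSK :=
  Pool.Agent.NPC.H670R2.InER.of_poly poly_formE formE_correct

end Pool.Agent.NPC.ER.LS
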