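import Pool.Agent.H728.LS.Defs
import Pool.Agent.H728.Pert

/-!
# Long and short edges: degenerate drawings can be perturbed
-/

namespace Pool.Agent.H728.LS

open Finset Filter Topology

/-- A point of the plane in homogeneous coordinates. -/
noncomputable def hom (p : E2) : Fin 3 → ℝ := ![1, p 0, p 1]

/-- The point with given homogeneous coordinates. -/
noncomputable def aff (v : Fin 3 → ℝ) : E2 := !₂[v 1, v 2]

theorem aff_hom (p : E2) : aff (hom p) = p := by
  ext i
  fin_cases i <;> simp [aff, hom]

theorem continuous_aff : Continuous aff := by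
  unfold aff
  fun_prop

theorem path_zero {g : ℕ → Fin 3 → ℝ} (hg : ∀ v, g v 0 = 1) (s : ℝ) (v : ℕ) :
    path g s v 0 = 1 := by
  simp [path, mom, hg]

theorem hom_aff {v : Fin 3 → ℝ} (h : v 0 = 1) : hom (aff v) = v := by
  ext i
  fin_cases i <;> simp [aff, hom, h]

theorem hom_combo (a b : ℝ) (p q : E2) (hab : a + b = 1) :
    hom (a • p + b • q) = a • hom p + b • hom q := by
  ext i
  fin_cases i <;> simp [hom, hab]

/-- Points in general position. -/
theorem exists_general (f : ℕ → E2) (N : ℕ) {P : (ℕ → E2) → Prop}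
    (hP : ∀ᶠ f' in 𝓝 f, P f') :
    ∃ f' : ℕ → E2, P f' ∧ (∀ u v, u < N → v < N → u ≠ v → f' u ≠ f' v) ∧
      ∀ u v w, u < N → v < N → w < N → u ≠ v → f' w ∉ openSegment ℝ (f' u) (f' v) := by
  set g : ℕ → Fin 3 → ℝ := fun v => hom (f v) with hg
  have hg0 : ∀ v, g v 0 = 1 := fun v => by simp [hg, hom]
  have hc : Tendsto (fun s : ℝ => fun v => aff (path g s v)) (𝓝 0) (𝓝 f) := by
    rw [tendsto_pi_nhds]
    intro v
    have h1 : Tendsto (fun s : ℝ => path g s v) (𝓝 0) (𝓝 (g v)) :=
      (tendsto_pi_nhds.1 (tendsto_path g)) v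
    have h2 := (continuous_aff.tendsto (g v)).comp h1
    rw [hg, aff_hom] at h2
    exact h2
  have h1 : ∀ᶠ s in 𝓝[≠] (0 : ℝ), P (fun v => aff (path g s v)) :=
    nhdsWithin_le_nhds (hc.eventually hP)
  obtain ⟨s, hs1, hs2⟩ := (h1.and (eventually_generic g (N + 3))).exists
  have hli : ∀ a b c : ℕ, a < N + 3 → b < N + 3 → c < N + 3 → a ≠ b → a ≠ c → b ≠ c →
      LinearIndependent ℝ ![path g s a, path g s b, path g s c] := by
    intro a b c ha hb hc hab hac hbc
    have := hs2 ![a, b, c] (by
      intro x y hxy
      fin_cases x <;> fin_cases y <;> simp_all) (by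
      intro i
      fin_cases i <;> simp [ha, hb, hc])
    convert this using 1
    ext i
    fin_cases i <;> rfl
  have hh : ∀ v, hom (aff (path g s v)) = path g s v := fun v => hom_aff (path_zero hg0 s v)
  have hinj : ∀ u v, u < N → v < N → u ≠ v → aff (path g s u) ≠ aff (path g s v) := by
    intro u v hu hv huv h
    obtain ⟨w, hw, hwu, hwv⟩ : ∃ w, w < N + 3 ∧ w ≠ u ∧ w ≠ v := by
      refine ⟨N, by omega, by omega, by omega⟩
    have h2 := hli u v w (by omega) (by omega) hw huv hwu.symm hwv.symm
    have h3 := Fintype.linearIndependent_iff.1 h2 ![1, -1, 0] (by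
      have : path g s u = path g s v := by rw [← hh u, ← hh v, h]
      simp [Fin.sum_univ_three, this])
    have := h3 0
    simp at this
  refine ⟨fun v => aff (path g s v), hs1, hinj, fun u v w hu hv hw huv hmem => ?_⟩
  obtain ⟨a, b, ha, hb, hab, he⟩ := hmem
  simp only at he
  have he' : a • path g s u + b • path g s v = path g s w := by
    rw [← hh u, ← hh v, ← hh w, ← he, hom_combo _ _ _ _ hab]
  by_cases hwu : w = u
  · subst hwu
    have h5 : b • aff (path g s v) = b • aff (path g s w) := by
      have : a • aff (path g s w) + b • aff (path g s v) =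
          a • aff (path g s w) + b • aff (path g s w) := by
        rw [he, ← add_smul, hab, one_smul]
      exact add_left_cancel this
    exact hinj v w hv hw huv.symm (smul_right_injective _ hb.ne' h5)
  by_cases hwv : w = v
  · subst hwv
    have h5 : a • aff (path g s u) = a • aff (path g s w) := by
      have : a • aff (path g s u) + b • aff (path g s w) =
          a • aff (path g s w) + b • aff (path g s w) := by
        rw [he, ← add_smul, hab, one_smul]
      exact add_right_cancel this
    exact hinj u w hu hw huv (smul_right_injective _ ha.ne' h5)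
  have h2 := hli u v w (by omega) (by omega) (by omega) huv (Ne.symm hwu) (Ne.symm hwv)
  have h3 := Fintype.linearIndependent_iff.1 h2 ![a, b, -1] (by
    simp [Fin.sum_univ_three, he'])
  have := h3 2
  simp at this

/-- The points of the two classes as one sequence. -/
def mix (p q : ℕ → E2) (v : ℕ) : E2 := if v % 2 = 0 then p (v / 2) else q (v / 2)

theorem mix_even (p q : ℕ → E2) (i : ℕ) : mix p q (2 * i) = p i := by
  unfold mix
  rw [if_pos (by omega), show 2 * i / 2 = i by omega]

theorem mix_odd (p q : ℕ → E2) (i : ℕ) : mix p q (2 * i + 1) = q i := by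
  unfold mix
  rw [if_neg (by omega), show (2 * i + 1) / 2 = i by omega]

theorem ent_eq {M : List (List Bool)} (hM : IsMat M) {i j : ℕ} (hi : i < M.length)
    (hj : j < wid M) : ∃ hj' : j < M[i].length, ent M i j = M[i][j] := by
  have h1 : j < M[i].length := by
    rw [hM _ (List.getElem_mem hi)]
    exact hj
  refine ⟨h1, ?_⟩
  unfold ent
  rw [List.getD_eq_getElem _ _ hi, List.getD_eq_getElem _ _ h1]

/-- Realizability means that there are points with the prescribed distances; degenerate positions
can be perturbed. -/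
theorem kRealizable_iff (M : List (List Bool)) : KRealizable M ↔
    ∃ p q : ℕ → E2, ∀ i < M.length, ∀ j < wid M,
      (dist (p i) (q j) ≤ 1 ↔ ent M i j = true) := by
  constructor
  · rintro ⟨D, -, hD⟩
    refine ⟨fun i => if h : i < M.length then D (Sum.inl ⟨i, h⟩) else 0,
      fun j => if h : j < wid M then D (Sum.inr ⟨j, h⟩) else 0, fun i hi j hj => ?_⟩
    simp only [dif_pos hi, dif_pos hj]
    rw [hD (Sum.inl ⟨i, hi⟩) (Sum.inr ⟨j, hj⟩) (by simp)]
    unfold shortEdges
    simp only [Set.mem_ofPred_eq]
    constructor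
    · rintro ⟨i', j', h, h'⟩
      rw [Sym2.eq_iff] at h
      rcases h with ⟨h1, h2⟩ | ⟨h1, -⟩
      · rw [Sum.inl.injEq] at h1
        rw [Sum.inr.injEq] at h2
        rw [← h1, ← h2] at h'
        exact h'
      · exact absurd h1 (by simp)
    · intro h
      exact ⟨⟨i, hi⟩, ⟨j, hj⟩, rfl, h⟩
  · rintro ⟨p, q, hpq⟩
    -- make all the inequalities strict
    obtain ⟨c, hc0, hc1, hc⟩ : ∃ c : ℝ, 0 < c ∧ c < 1 ∧ ∀ i < M.length, ∀ j < wid M,
        ent M i j = false → 1 < c * dist (p i) (q j) := by
      have h1 : ∀ᶠ c in 𝓝[<] (1 : ℝ), ∀ i ∈ range M.length, ∀ j ∈ range (wid M),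
          ent M i j = false → 1 < c * dist (p i) (q j) := by
        rw [eventually_all_finset]
        intro i hi
        rw [eventually_all_finset]
        intro j hj
        rw [mem_range] at hi hj
        by_cases h : ent M i j = false
        · have h2 : 1 < dist (p i) (q j) := by
            by_contra h3
            rw [(hpq i hi j hj).1 (not_lt.1 h3)] at h
            exact absurd h (by simp)
          have h3 : Tendsto (fun c : ℝ => c * dist (p i) (q j)) (𝓝 1)
              (𝓝 (1 * dist (p i) (q j))) := (continuous_id.mul continuous_const).tendsto 1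
          rw [one_mul] at h3
          filter_upwards [nhdsWithin_le_nhds (h3.eventually (lt_mem_nhds h2))] with c hc _ using hc
        · exact Eventually.of_forall fun c h' => absurd h' h
      have h2 : ∀ᶠ c in 𝓝[<] (1 : ℝ), 0 < c :=
        nhdsWithin_le_nhds (lt_mem_nhds zero_lt_one)
      obtain ⟨c, ⟨h3, h4⟩, h5⟩ := ((h1.and h2).and self_mem_nhdsWithin).exists
      exact ⟨c, h4, h5, fun i hi j hj => h3 i (mem_range.2 hi) j (mem_range.2 hj)⟩
    set f : ℕ → E2 := mix (fun i => c • p i) (fun j => c • q j) with hf
    have hdist : ∀ i j, dist (f (2 * i)) (f (2 * j + 1)) = c * dist (p i) (q j) := by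
      intro i j
      rw [hf, mix_even, mix_odd, dist_smul₀, Real.norm_eq_abs, abs_of_pos hc0]
    have hP : ∀ᶠ f' : ℕ → E2 in 𝓝 f, ∀ i ∈ range M.length, ∀ j ∈ range (wid M),
        (dist (f' (2 * i)) (f' (2 * j + 1)) ≤ 1 ↔ ent M i j = true) := by
      rw [eventually_all_finset]
      intro i hi
      rw [eventually_all_finset]
      intro j hj
      rw [mem_range] at hi hj
      have hcont : Tendsto (fun f' : ℕ → E2 => dist (f' (2 * i)) (f' (2 * j + 1))) (𝓝 f)
          (𝓝 (dist (f (2 * i)) (f (2 * j + 1)))) :=
        ((continuous_apply (2 * i)).dist (continuous_apply (2 * j + 1))).tendsto f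
      rw [hdist] at hcont
      by_cases h : ent M i j = true
      · have h2 : dist (p i) (q j) ≤ 1 := (hpq i hi j hj).2 h
        have h3 : c * dist (p i) (q j) < 1 := by
          nlinarith [dist_nonneg (x := p i) (y := q j)]
        filter_upwards [hcont.eventually (gt_mem_nhds h3)] with f' hf'
        exact ⟨fun _ => h, fun _ => hf'.le⟩
      · have h3 := hc i hi j hj (by simpa using h)
        filter_upwards [hcont.eventually (lt_mem_nhds h3)] with f' hf'
        exact ⟨fun h' => absurd h' (not_le.2 hf'), fun h' => absurd h' h⟩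
    obtain ⟨f', h1, h2, h3⟩ := exists_general f (2 * (M.length + wid M) + 2) hP
    let ix : Fin M.length ⊕ Fin (wid M) → ℕ := fun v =>
      Sum.elim (fun i : Fin M.length => 2 * (i : ℕ)) (fun j : Fin (wid M) => 2 * (j : ℕ) + 1) v
    have hix : ∀ v, ix v < 2 * (M.length + wid M) + 2 := by
      rintro (i | j)
      · have := i.2
        change 2 * (i : ℕ) < _
        omega
      · have := j.2
        change 2 * (j : ℕ) + 1 < _
        omega
    have hinj : Function.Injective ix := by
      rintro (i | i) (j | j) h
      · have : 2 * (i : ℕ) = 2 * (j : ℕ) := h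
        congr 1
        exact Fin.ext (by omega)
      · have : 2 * (i : ℕ) = 2 * (j : ℕ) + 1 := h
        omega
      · have : 2 * (i : ℕ) + 1 = 2 * (j : ℕ) := h
        omega
      · have : 2 * (i : ℕ) + 1 = 2 * (j : ℕ) + 1 := h
        congr 1
        exact Fin.ext (by omega)
    refine ⟨fun v => f' (ix v), ⟨fun u v huv => ?_, fun u v w huv => ?_⟩, ?_⟩
    · by_contra hne
      exact h2 _ _ (hix u) (hix v) (fun h => hne (hinj h)) huv
    · exact h3 _ _ _ (hix u) (hix v) (hix w) (fun h => huv.ne (hinj h))
    · have key : ∀ (i : Fin M.length) (j : Fin (wid M)),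
          (dist (f' (ix (Sum.inl i))) (f' (ix (Sum.inr j))) ≤ 1 ↔
            s(Sum.inl i, Sum.inr j) ∈ shortEdges M) := by
        intro i j
        have h4 := h1 i (mem_range.2 i.2) j (mem_range.2 j.2)
        refine h4.trans ?_
        unfold shortEdges
        simp only [Set.mem_ofPred_eq]
        constructor
        · intro h
          exact ⟨i, j, rfl, h⟩
        · rintro ⟨i', j', h, h'⟩
          rw [Sym2.eq_iff] at h
          rcases h with ⟨h5, h6⟩ | ⟨h5, -⟩
          · rw [Sum.inl.injEq] at h5
            rw [Sum.inr.injEq] at h6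
            rw [h5, h6]
            exact h'
          · exact absurd h5 (by simp)
      rintro (i | i) (j | j) huv
      · simp at huv
      · exact key i j
      · simp only
        rw [dist_comm, Sym2.eq_swap]
        exact key j i
      · simp at huv

end Pool.Agent.H728.LS
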